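import Pool.Agent.U469.RT.Stm

/-!
# Project RT, package MIX: finite mixtures
-/

set_option autoImplicit false

namespace Pool.Agent.U574.RT.Mix

open Pool.Agent.R248.Ritt Finset Filter Topology
open Pool.Agent.U469.RT

theorem SU_add {f g : A} (hf : SU f) (hg : SU g) : SU (f + g) where
  nonneg k := by
    rw [AddMonoidAlgebra.coeff_add]
    exact add_nonneg (hf.nonneg k) (hg.nonneg k)
  symm k := by
    rw [AddMonoidAlgebra.coeff_add]
    show f.coeff (-k) + g.coeff (-k) = f.coeff k + g.coeff k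
    rw [hf.symm, hg.symm]
  anti k hk := by
    rw [AddMonoidAlgebra.coeff_add]
    exact add_le_add (hf.anti k hk) (hg.anti k hk)

theorem SU_smul {f : A} {t : ℝ} (ht : 0 ≤ t) (hf : SU f) : SU (t • f) where
  nonneg k := by
    rw [AddMonoidAlgebra.coeff_smul_apply]
    exact mul_nonneg ht (hf.nonneg k)
  symm k := by
    rw [AddMonoidAlgebra.coeff_smul_apply, AddMonoidAlgebra.coeff_smul_apply, hf.symm]
  anti k hk := by
    rw [AddMonoidAlgebra.coeff_smul_apply, AddMonoidAlgebra.coeff_smul_apply]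
    exact mul_le_mul_of_nonneg_left (hf.anti k hk) ht

theorem SU_zero : SU (0 : A) where
  nonneg k := by simp
  symm k := by simp
  anti k _ := by simp

theorem Mj_mono {C D : ℝ} {h : A} (hCD : C ≤ D) (hh : Mj C h) : Mj D h := by
  obtain ⟨Ψ, h1, h2, h3⟩ := hh
  exact ⟨Ψ, h1, h2, h3.trans hCD⟩

theorem Mj_zero : Mj 0 0 := ⟨0, SU_zero, fun k => by simp, by rw [N1_zero]⟩

theorem Mj_add {C D : ℝ} {h g : A} (hh : Mj C h) (hg : Mj D g) : Mj (C + D) (h + g) := by
  obtain ⟨Ψ, h1, h2, h3⟩ := hh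
  obtain ⟨Φ, g1, g2, g3⟩ := hg
  refine ⟨Ψ + Φ, SU_add h1 g1, fun k => ?_, (N1_add_le _ _).trans (add_le_add h3 g3)⟩
  rw [AddMonoidAlgebra.coeff_add, AddMonoidAlgebra.coeff_add]
  exact (abs_add_le _ _).trans (add_le_add (h2 k) (g2 k))

theorem Mj_smul {C t : ℝ} {h : A} (ht : 0 ≤ t) (hh : Mj C h) : Mj (t * C) (t • h) := by
  obtain ⟨Ψ, h1, h2, h3⟩ := hh
  refine ⟨t • Ψ, SU_smul ht h1, fun k => ?_, ?_⟩
  · rw [AddMonoidAlgebra.coeff_smul_apply, AddMonoidAlgebra.coeff_smul_apply, smul_eq_mul,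
      smul_eq_mul, abs_mul, abs_of_nonneg ht]
    exact mul_le_mul_of_nonneg_left (h2 k) ht
  · rw [N1_smul, abs_of_nonneg ht]
    exact mul_le_mul_of_nonneg_left h3 ht

theorem Mj_sum {κ : Type*} (s : Finset κ) (c : κ → ℝ) (h : κ → A) (hh : ∀ i ∈ s, Mj (c i) (h i)) :
    Mj (∑ i ∈ s, c i) (∑ i ∈ s, h i) := by
  classical
  induction s using Finset.induction_on with
  | empty => simpa using Mj_zero
  | insert a s ha ih =>
    rw [sum_insert ha, sum_insert ha]
    exact Mj_add (hh a (mem_insert_self _ _)) (ih fun i hi => hh i (mem_insert_of_mem hi))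

theorem expand (p : ℕ → ℝ) (R n m : ℕ) (S : Finset (Fin (n + m))) (hS : S.card = m) :
    ((∑ j ∈ range R, p j) • (1 : A) - ∑ j ∈ range R, p j • U j) ^ m *
      (∑ j ∈ range R, p j • U j) ^ n =
    ∑ x ∈ Fintype.piFinset (fun _ : Fin (n + m) => range R), (∏ l, p (x l)) • trm univ x S := by
  obtain ⟨M, hM⟩ : ∃ M, M = ∑ j ∈ range R, p j • U j := ⟨_, rfl⟩
  obtain ⟨D, hD⟩ : ∃ D, D = (∑ j ∈ range R, p j) • (1 : A) - M := ⟨_, rfl⟩
  rw [← hM, ← hD]
  have h1 : D ^ m * M ^ n = ∏ l : Fin (n + m), if l ∈ S then D else M := by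
    rw [prod_ite, prod_const, prod_const]
    congr 2
    · rw [filter_mem_eq_inter, univ_inter, hS]
    · rw [filter_notMem_eq_sdiff, card_sdiff, inter_univ, card_univ, Fintype.card_fin, hS]
      omega
  have h2 : ∀ l : Fin (n + m), (if l ∈ S then D else M) =
      ∑ j ∈ range R, p j • (if l ∈ S then 1 - U j else U j) := by
    intro l
    split_ifs
    · rw [hD, hM, Finset.sum_smul, ← sum_sub_distrib]
      exact sum_congr rfl fun j _ => by rw [smul_sub]
    · exact hM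
  rw [h1, prod_congr rfl fun l _ => h2 l, prod_univ_sum]
  refine sum_congr rfl fun x _ => ?_
  simp only [Algebra.smul_def]
  rw [prod_mul_distrib, ← map_prod]
  congr 1
  rw [prod_ite, filter_mem_eq_inter, univ_inter, filter_notMem_eq_sdiff]
  rfl

theorem pow_le (n m : ℕ) : (n : ℝ) ^ m ≤ (m.factorial : ℝ) * ((n + m).choose m : ℝ) := by
  have h1 : n ^ m ≤ m.factorial * (n + m).choose m := by
    rw [← Nat.ascFactorial_eq_factorial_mul_choose]
    exact (Nat.pow_le_pow_left (Nat.le_succ n) m).trans (Nat.pow_succ_le_ascFactorial _ _)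
  exact_mod_cast h1

theorem t_MIX (h : S_SUM) : S_MIX := by
  intro m
  obtain ⟨C, hC, H⟩ := h m
  refine ⟨C * m.factorial, by positivity, fun p hp R n hn => ?_⟩
  obtain ⟨s, hs⟩ : ∃ s, s = ∑ j ∈ range R, p j := ⟨_, rfl⟩
  have hs0 : 0 ≤ s := by rw [hs]; exact sum_nonneg fun j _ => hp j
  obtain ⟨g, hg⟩ : ∃ g, g = ((∑ j ∈ range R, p j) • (1 : A) - ∑ j ∈ range R, p j • U j) ^ m *
      (∑ j ∈ range R, p j • U j) ^ n := ⟨_, rfl⟩
  rw [← hg, ← hs]
  choose c hc1 hc2 using fun x : Fin (n + m) → ℕ => H (Fin (n + m)) x univ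
  obtain ⟨P, hP⟩ : ∃ P, P = Fintype.piFinset (fun _ : Fin (n + m) => range R) := ⟨_, rfl⟩
  have key : Mj (∑ S ∈ powersetCard m (univ : Finset (Fin (n + m))), ∑ x ∈ P,
      (∏ l, p (x l)) * c x S) (∑ _S ∈ powersetCard m (univ : Finset (Fin (n + m))), g) := by
    refine Mj_sum _ _ _ fun S hS => ?_
    rw [hg, expand p R n m S (mem_powersetCard.1 hS).2, ← hP]
    exact Mj_sum _ _ _ fun x _ => Mj_smul (prod_nonneg fun l _ => hp _) (hc1 x S hS)
  have hsum : (∑ S ∈ powersetCard m (univ : Finset (Fin (n + m))), ∑ x ∈ P,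
      (∏ l, p (x l)) * c x S) ≤ C * s ^ (n + m) := by
    rw [sum_comm]
    calc _ ≤ ∑ x ∈ P, (∏ l, p (x l)) * C := by
          refine sum_le_sum fun x _ => ?_
          rw [← Finset.mul_sum]
          exact mul_le_mul_of_nonneg_left (hc2 x) (prod_nonneg fun l _ => hp _)
      _ = _ := by
          rw [← Finset.sum_mul, hP, ← prod_univ_sum (fun _ : Fin (n + m) => range R)
            (fun _ j => p j), mul_comm]
          simp [hs]
  have hcard : (∑ _S ∈ powersetCard m (univ : Finset (Fin (n + m))), g) =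
      (((n + m).choose m : ℕ) : ℝ) • g := by
    rw [sum_const, card_powersetCard, card_univ, Fintype.card_fin, Nat.cast_smul_eq_nsmul]
  rw [hcard] at key
  have hb : (0 : ℝ) < (((n + m).choose m : ℕ) : ℝ) := by
    exact_mod_cast Nat.choose_pos (Nat.le_add_left m n)
  have k2 := Mj_smul (inv_nonneg.2 hb.le) (Mj_mono hsum key)
  rw [smul_smul, inv_mul_cancel₀ hb.ne', one_smul] at k2
  refine Mj_mono ?_ k2
  have hn0 : (0 : ℝ) < (n : ℝ) ^ m := by
    have : (0 : ℝ) < n := by exact_mod_cast hn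
    positivity
  have h5 := pow_le n m
  rw [div_mul_eq_mul_div, inv_mul_eq_div, div_le_div_iff₀ hb hn0]
  calc C * s ^ (n + m) * (n : ℝ) ^ m ≤ C * s ^ (n + m) * ((m.factorial : ℝ) * ((n + m).choose m : ℝ)) :=
        mul_le_mul_of_nonneg_left h5 (by positivity)
    _ = _ := by ring

end Pool.Agent.U574.RT.Mix
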